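import Pool.Agent.MP_3bf126_pr.H21.Main

/-! Robbins' problem: for all large `n`, every stopping rule has expected rank at least `2.292`. -/

namespace Pool.Agent.Results.MP_3bf126_pr.LowerBound
open MeasureTheory ProbabilityTheory

theorem result : ∃ n₀ : ℕ, ∀ n ≥ n₀, ∀ (Ω : Type) [MeasurableSpace Ω] (P : Measure Ω)
    [IsProbabilityMeasure P] (s : Fin n → Ω → ℝ) (hs : ∀ i, StronglyMeasurable (s i)),
    iIndepFun s P → (∀ i, P.map (s i) = volume.restrict (Set.Icc (0 : ℝ) 1)) →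
    ∀ τ : Ω → Fin n, IsStoppingTime (Filtration.natural s hs) (fun ω => (τ ω : WithTop (Fin n))) →
      (2.292 : ℝ) ≤ ∫ ω, (1 + ((Finset.univ.filter fun j => s (τ ω) ω < s j ω).card : ℝ)) ∂P := by
  obtain ⟨r0, h⟩ := Pool.Agent.MP_3bf126_pr.H21.ev_main
  rw [show (((2292 : ℕ) : ℝ) / ((1000 : ℕ) : ℝ)) = 2.292 by norm_num] at h
  exact ⟨r0 + 1, fun n hn Ω _ P _ s hs hi hU τ hτ =>
    Pool.Agent.MP_3bf126_pr.H40.transfer (by omega) (h n (by omega)) P s hs hi hU τ hτ⟩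

end Pool.Agent.Results.MP_3bf126_pr.LowerBound
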