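import Pool.Agent.MP_3bf126_pr.H16.Main

/-! Robbins' problem: for all large `n`, some stopping rule has expected rank at most `2.3174`. -/

namespace Pool.Agent.Results.MP_3bf126_pr.UpperBound
open MeasureTheory ProbabilityTheory

theorem result : ∃ n₀ : ℕ, ∀ n ≥ n₀, ∀ (Ω : Type) [MeasurableSpace Ω] (P : Measure Ω)
    [IsProbabilityMeasure P] (s : Fin n → Ω → ℝ) (hs : ∀ i, StronglyMeasurable (s i)),
    iIndepFun s P → (∀ i, P.map (s i) = volume.restrict (Set.Icc (0 : ℝ) 1)) →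
    ∃ τ : Ω → Fin n, Measurable τ ∧
      IsStoppingTime (Filtration.natural s hs) (fun ω => (τ ω : WithTop (Fin n))) ∧
      ∫ ω, (1 + ((Finset.univ.filter fun j => s (τ ω) ω < s j ω).card : ℝ)) ∂P ≤ (2.3174 : ℝ) := by
  obtain ⟨n₀, h⟩ := Filter.eventually_atTop.1 Pool.Agent.MP_3bf126_pr.H16.ev_main
  refine ⟨n₀, fun n hn Ω _ P _ s hs hi hU => ?_⟩
  obtain ⟨T, hT⟩ := h n hn
  exact Pool.Agent.MP_3bf126_pr.H16.transfer T (by norm_num) hT P s hs hi hU

end Pool.Agent.Results.MP_3bf126_pr.UpperBound
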